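import Pool.Agent.V8H36.OW.Ker1

set_option autoImplicit false
set_option linter.all false
set_option maxHeartbeats 4000000

/-!
Job KER of project OW (helper53), part 7: the estimate.
-/

open MeasureTheory Set Metric Filter Topology
open scoped ContDiff ENNReal
open H459R3.NS Pool.Agent.W268.NS

namespace Pool.Agent.V8H36.OW

open Pool.Agent.Q67.AXI Pool.Agent.TH305.AX
open Pool.Agent.Q153.VD (nn nn_nonneg)

/-- Hölder's inequality -/
lemma hold4 (g B : V → ℝ≥0∞) (hg : Measurable g) (hB : Measurable B) :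
    (∫⁻ y, g y * B y) ^ 4 ≤ (∫⁻ y, g y) ^ 3 * ∫⁻ y, g y * B y ^ 4 := by
  have hpq : (4 / 3 : ℝ).HolderConjugate 4 := by
    rw [Real.holderConjugate_iff]
    norm_num
  have h1 := ENNReal.lintegral_mul_le_Lp_mul_Lq (volume : Measure V) hpq
    (f := fun y => g y ^ (3 / 4 : ℝ)) (g := fun y => g y ^ (1 / 4 : ℝ) * B y)
    (hg.pow_const _).aemeasurable ((hg.pow_const _).mul hB).aemeasurable
  have e1 : ∀ y, ((fun y => g y ^ (3 / 4 : ℝ)) * fun y => g y ^ (1 / 4 : ℝ) * B y) y = g y * B y := by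
    intro y
    simp only [Pi.mul_apply]
    rw [← mul_assoc, ← ENNReal.rpow_add_of_nonneg _ _ (by norm_num) (by norm_num)]
    norm_num
  have e2 : ∀ y, (g y ^ (3 / 4 : ℝ)) ^ (4 / 3 : ℝ) = g y := by
    intro y
    rw [← ENNReal.rpow_mul]
    norm_num
  have e3 : ∀ y, (g y ^ (1 / 4 : ℝ) * B y) ^ (4 : ℝ) = g y * B y ^ 4 := by
    intro y
    rw [ENNReal.mul_rpow_of_nonneg _ _ (by norm_num), ← ENNReal.rpow_mul]
    congr 1
    · norm_num
    · rw [← ENNReal.rpow_natCast]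
      norm_num
  simp only [e1, e2, e3] at h1
  have h2 := pow_le_pow_left₀ bot_le h1 4
  refine h2.trans (le_of_eq ?_)
  rw [mul_pow, ← ENNReal.rpow_natCast, ← ENNReal.rpow_mul, ← ENNReal.rpow_natCast, ← ENNReal.rpow_mul]
  congr 1
  · rw [← ENNReal.rpow_natCast]
    norm_num
  · norm_num

lemma Bd_meas1 (r : ℝ) (x : V) : Measurable (fun y : V => Bd r x y) := by
  unfold Bd
  have h1 : Measurable (fun y : V => |x 2 - y 2|) := by
    have : Continuous (fun y : V => |x 2 - y 2|) := by fun_prop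
    exact this.measurable
  exact measurable_const.add (measurable_const.mul ((h1.ennreal_ofReal.pow_const _).mul
    measurable_const))

lemma Bd_meas2 (r : ℝ) (y : V) : Measurable (fun x : V => Bd r x y) := by
  unfold Bd
  have h1 : Measurable (fun x : V => |x 2 - y 2|) := by
    have : Continuous (fun x : V => |x 2 - y 2|) := by fun_prop
    exact this.measurable
  have h2 : Measurable (fun x : V => √(sg x)) := by
    have : Continuous (fun x : V => √(sg x)) := by
      unfold sg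
      fun_prop
    exact this.measurable
  exact measurable_const.add (measurable_const.mul ((h1.ennreal_ofReal.pow_const _).mul
    (h2.ennreal_ofReal.pow_const _)))

lemma pt_est {A g : V → ℝ} (hg : Continuous g) (hr : ∀ a x, |g (rot a x)| = |g x|)
    (hA : ∀ x, ENNReal.ofReal (|A x| * kap) ≤ ∫⁻ y, ENNReal.ofReal (√(sg y) * |g y|) * nk (x - y))
    {r : ℝ} (hr0 : 0 < r) (x : V) (hx : √(sg x) < r) :
    ENNReal.ofReal ((2 * Real.pi * kap) ^ 4 * A x ^ 4) ≤
      (∫⁻ y, ENNReal.ofReal |g y|) ^ 3 * ∫⁻ y, ENNReal.ofReal |g y| * Bd r x y ^ 4 := by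
  have hpi := Real.pi_pos
  have hk := kap_pos
  have hgm : Measurable (fun y : V => ENNReal.ofReal |g y|) := hg.abs.measurable.ennreal_ofReal
  have hsg : Continuous (fun y : V => √(sg y)) := by
    unfold sg
    fun_prop
  have hG : Measurable (fun y : V => ENNReal.ofReal (√(sg y) * |g y|)) :=
    (hsg.mul hg.abs).measurable.ennreal_ofReal
  have hB := Bd_meas1 r x
  have hrot : ∀ a y, ENNReal.ofReal (√(sg (rot a y)) * |g (rot a y)|) = ENNReal.ofReal (√(sg y) * |g y|) := by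
    intro a y
    rw [sg_rot, hr]
  have h3 := avg (fun y => ENNReal.ofReal (√(sg y) * |g y|)) hG hrot x
  have h6 : ∀ y, ENNReal.ofReal (√(sg y) * |g y|) * Jk x y ≤ ENNReal.ofReal |g y| * Bd r x y := by
    intro y
    have h7 := Jk_bd hr0 x y hx
    rw [ENNReal.ofReal_mul (Real.sqrt_nonneg _)]
    calc ENNReal.ofReal √(sg y) * ENNReal.ofReal |g y| * Jk x y
        = ENNReal.ofReal |g y| * (ENNReal.ofReal √(sg y) * Jk x y) := by ring
      _ ≤ _ := mul_le_mul' le_rfl h7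
  have h4 : ENNReal.ofReal (2 * Real.pi) * ENNReal.ofReal (|A x| * kap) ≤
      ∫⁻ y, ENNReal.ofReal |g y| * Bd r x y :=
    ((mul_le_mul' le_rfl (hA x)).trans (le_of_eq h3)).trans (lintegral_mono h6)
  have h5 := (pow_le_pow_left₀ bot_le h4 4).trans (hold4 _ _ hgm hB)
  have h8 : ENNReal.ofReal ((2 * Real.pi * kap) ^ 4 * A x ^ 4) =
      (ENNReal.ofReal (2 * Real.pi) * ENNReal.ofReal (|A x| * kap)) ^ 4 := by
    rw [← ENNReal.ofReal_mul (by positivity), ← ENNReal.ofReal_pow (by positivity)]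
    have h9 : |A x| ^ 4 = A x ^ 4 := by
      rw [show |A x| ^ 4 = (|A x| ^ 2) ^ 2 by ring, sq_abs]
      ring
    have h10 : (2 * Real.pi * (|A x| * kap)) ^ 4 = (2 * Real.pi * kap) ^ 4 * A x ^ 4 := by
      rw [← h9]
      ring
    rw [h10]
  rw [h8]
  exact h5

theorem coord_est {F q : V → ℝ} (hF : ContDiff ℝ ∞ F) (hc : HasCompactSupport F)
    (h0 : ∀ x, pd 0 F x = x 0 * q x) (h1 : ∀ x, pd 1 F x = x 1 * q x)
    (hr : ∀ a x, |lap F (rot a x) + 2 * q (rot a x)| = |lap F x + 2 * q x|)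
    (hcont : Continuous (fun x => lap F x + 2 * q x)) (i : Fin 3) (hi : i = 0 ∨ i = 1)
    (c : ℝ) {r : ℝ} (hr0 : 0 < r) :
    ∫⁻ x in Co c r r, ENNReal.ofReal ((2 * Real.pi * kap) ^ 4 * (x i * F x) ^ 4) ≤
      (∫⁻ y, ENNReal.ofReal |lap F y + 2 * q y|) ^ 4 * (ENNReal.ofReal (r ^ 3) * KK) := by
  have hg : Measurable (fun y : V => ENNReal.ofReal |lap F y + 2 * q y|) :=
    hcont.abs.measurable.ennreal_ofReal
  set I := ∫⁻ y, ENNReal.ofReal |lap F y + 2 * q y| with hI
  have hm : Measurable (fun p : V × V => ENNReal.ofReal |lap F p.2 + 2 * q p.2| * Bd r p.1 p.2 ^ 4) :=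
    (hg.comp measurable_snd).mul ((Bd_meas r).pow_const 4)
  calc ∫⁻ x in Co c r r, ENNReal.ofReal ((2 * Real.pi * kap) ^ 4 * (x i * F x) ^ 4)
      ≤ ∫⁻ x in Co c r r, I ^ 3 * ∫⁻ y, ENNReal.ofReal |lap F y + 2 * q y| * Bd r x y ^ 4 := by
        refine setLIntegral_mono' (co_meas c r r) fun x hx => ?_
        have hx1 : √(sg x) < r := by
          rw [Real.sqrt_lt' hr0]
          exact hx.1
        exact pt_est (A := fun x => x i * F x) (g := fun x => lap F x + 2 * q x) hcont hr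
          (newt_F hF hc h0 h1 i hi) hr0 x hx1
    _ = I ^ 3 * ∫⁻ x in Co c r r, ∫⁻ y, ENNReal.ofReal |lap F y + 2 * q y| * Bd r x y ^ 4 := by
        rw [lintegral_const_mul]
        exact hm.lintegral_prod_right'
    _ = I ^ 3 * ∫⁻ y, ∫⁻ x in Co c r r, ENNReal.ofReal |lap F y + 2 * q y| * Bd r x y ^ 4 := by
        rw [lintegral_lintegral_swap]
        exact hm.aemeasurable
    _ = I ^ 3 * ∫⁻ y, ENNReal.ofReal |lap F y + 2 * q y| * ∫⁻ x in Co c r r, Bd r x y ^ 4 := by
        congr 1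
        refine lintegral_congr fun y => ?_
        rw [lintegral_const_mul _ ((Bd_meas2 r y).pow_const 4)]
    _ ≤ I ^ 3 * ∫⁻ y, ENNReal.ofReal |lap F y + 2 * q y| * (ENNReal.ofReal (r ^ 3) * KK) := by
        gcongr with y
        exact Bd_int hr0 y
    _ = I ^ 4 * (ENNReal.ofReal (r ^ 3) * KK) := by
        rw [lintegral_mul_const _ hg, ← hI]
        ring

theorem ker : Pool.Agent.V8H53.OW.StmKer := by
  have hpi := Real.pi_pos
  have hk := kap_pos
  refine ⟨4 * KK.toReal / (2 * Real.pi * kap) ^ 4, by positivity, fun F hF hc ha c r hr => ?_⟩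
  obtain ⟨q, hq, h0, h1, hrot, hae, hcont, hint⟩ := ax_data hF hc ha
  have hIr : ∫ x, |LL F x| = ∫ x, |lap F x + 2 * q x| :=
    integral_congr_ae (hae.mono fun x hx => by simp only [hx])
  have hI : ∫⁻ y, ENNReal.ofReal |lap F y + 2 * q y| = ENNReal.ofReal (∫ x, |LL F x|) := by
    rw [hIr, ofReal_integral_eq_lintegral_ofReal hint.abs (ae_of_all _ fun _ => abs_nonneg _)]
  have hI0 : 0 ≤ ∫ x, |LL F x| := integral_nonneg fun _ => abs_nonneg _
  have a0 := coord_est hF hc h0 h1 hrot hcont 0 (Or.inl rfl) c hr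
  have a1 := coord_est hF hc h0 h1 hrot hcont 1 (Or.inr rfl) c hr
  rw [hI] at a0 a1
  set I := ∫ x, |LL F x| with hIdef
  have hrhs : ENNReal.ofReal I ^ 4 * (ENNReal.ofReal (r ^ 3) * KK) = ENNReal.ofReal (I ^ 4 * (r ^ 3 * KK.toReal)) := by
    rw [ENNReal.ofReal_mul (by positivity), ENNReal.ofReal_mul (by positivity), ENNReal.ofReal_pow hI0,
      ENNReal.ofReal_toReal KK_fin]
  rw [hrhs] at a0 a1
  have hk4 : 0 < (2 * Real.pi * kap) ^ 4 := by positivity
  have hFc := hF.continuous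
  have hmi : ∀ i : Fin 3, Measurable (fun x : V => ENNReal.ofReal ((2 * Real.pi * kap) ^ 4 * (x i * F x) ^ 4)) := by
    intro i
    have : Continuous (fun x : V => (2 * Real.pi * kap) ^ 4 * (x i * F x) ^ 4) := by fun_prop
    exact this.measurable.ennreal_ofReal
  have hsum : ∫⁻ x in Co c r r, ENNReal.ofReal ((2 * Real.pi * kap) ^ 4 * (sg x ^ 2 * F x ^ 4)) ≤
      ENNReal.ofReal (4 * (I ^ 4 * (r ^ 3 * KK.toReal))) := by
    calc ∫⁻ x in Co c r r, ENNReal.ofReal ((2 * Real.pi * kap) ^ 4 * (sg x ^ 2 * F x ^ 4))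
        ≤ ∫⁻ x in Co c r r, 2 * (ENNReal.ofReal ((2 * Real.pi * kap) ^ 4 * (x 0 * F x) ^ 4) +
            ENNReal.ofReal ((2 * Real.pi * kap) ^ 4 * (x 1 * F x) ^ 4)) := by
          refine lintegral_mono fun x => ?_
          have h4 : (2 : ℝ≥0∞) = ENNReal.ofReal 2 := by simp
          rw [← ENNReal.ofReal_add (by positivity) (by positivity), h4, ← ENNReal.ofReal_mul (by norm_num)]
          apply ENNReal.ofReal_le_ofReal
          have h5 : sg x ^ 2 * F x ^ 4 ≤ 2 * ((x 0 * F x) ^ 4 + (x 1 * F x) ^ 4) := by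
            unfold sg
            have : 0 ≤ (x 0 ^ 2 - x 1 ^ 2) ^ 2 * F x ^ 4 := by positivity
            nlinarith
          nlinarith
      _ = 2 * ((∫⁻ x in Co c r r, ENNReal.ofReal ((2 * Real.pi * kap) ^ 4 * (x 0 * F x) ^ 4)) +
            ∫⁻ x in Co c r r, ENNReal.ofReal ((2 * Real.pi * kap) ^ 4 * (x 1 * F x) ^ 4)) := by
          have hm01 : Measurable (fun x : V => ENNReal.ofReal ((2 * Real.pi * kap) ^ 4 * (x 0 * F x) ^ 4) +
            ENNReal.ofReal ((2 * Real.pi * kap) ^ 4 * (x 1 * F x) ^ 4)) := (hmi 0).add (hmi 1)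
          rw [lintegral_const_mul _ hm01, lintegral_add_left (hmi 0)]
      _ ≤ 2 * (ENNReal.ofReal (I ^ 4 * (r ^ 3 * KK.toReal)) + ENNReal.ofReal (I ^ 4 * (r ^ 3 * KK.toReal))) := by
          gcongr
      _ = ENNReal.ofReal (4 * (I ^ 4 * (r ^ 3 * KK.toReal))) := by
          have h4 : (2 : ℝ≥0∞) = ENNReal.ofReal 2 := by simp
          rw [← ENNReal.ofReal_add (by positivity) (by positivity), h4, ← ENNReal.ofReal_mul (by norm_num)]
          congr 1
          ring
  have hfin : (2 * Real.pi * kap) ^ 4 * ∫ x in Co c r r, sg x ^ 2 * F x ^ 4 ≤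
      4 * (I ^ 4 * (r ^ 3 * KK.toReal)) := by
    rw [← integral_const_mul, integral_eq_lintegral_of_nonneg_ae (ae_of_all _ fun x => by
      show (0 : ℝ) ≤ (2 * Real.pi * kap) ^ 4 * (sg x ^ 2 * F x ^ 4)
      have := sg_nonneg x
      positivity)]
    · exact ENNReal.toReal_le_of_le_ofReal (by positivity) hsum
    · have : Continuous (fun x : V => (2 * Real.pi * kap) ^ 4 * (sg x ^ 2 * F x ^ 4)) := by
        unfold sg
        fun_prop
      exact this.aestronglyMeasurable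
  rw [show 4 * KK.toReal / (2 * Real.pi * kap) ^ 4 * r ^ 3 * I ^ 4 =
    4 * (I ^ 4 * (r ^ 3 * KK.toReal)) / (2 * Real.pi * kap) ^ 4 by ring, le_div_iff₀ hk4, mul_comm]
  exact hfin

end Pool.Agent.V8H36.OW
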