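import Mathlib

set_option autoImplicit false
set_option linter.all false
set_option maxHeartbeats 4000000

/-!
Job KER of project OW (helper53), part 3: integrals of powers and the angular integral.
-/

open MeasureTheory Set Metric Filter Topology
open scoped ENNReal

namespace Pool.Agent.V8H36.OW

lemma rp_anti {x y : ℝ≥0∞} {s : ℝ} (h : x ≤ y) (hs : 0 ≤ s) : y ^ (-s) ≤ x ^ (-s) := by
  rw [ENNReal.rpow_neg, ENNReal.rpow_neg]
  exact ENNReal.inv_le_inv.2 (ENNReal.rpow_le_rpow h hs)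

lemma pw0 {s R : ℝ} (hs : s < 1) (hR : 0 ≤ R) :
    ∫⁻ t in Ioc 0 R, (ENNReal.ofReal t) ^ (-s) = ENNReal.ofReal (R ^ (1 - s) / (1 - s)) := by
  have h1 : ∫⁻ t in Ioc 0 R, (ENNReal.ofReal t) ^ (-s) = ∫⁻ t in Ioc 0 R, ENNReal.ofReal (t ^ (-s)) := by
    refine setLIntegral_congr_fun measurableSet_Ioc fun t ht => ?_
    exact ENNReal.ofReal_rpow_of_pos ht.1
  have h2 : IntervalIntegrable (fun t : ℝ => t ^ (-s)) volume 0 R :=
    intervalIntegral.intervalIntegrable_rpow' (by linarith)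
  rw [h1, ← ofReal_integral_eq_lintegral_ofReal]
  · rw [← intervalIntegral.integral_of_le hR, integral_rpow (Or.inl (by linarith))]
    congr 1
    have h3 : -s + 1 ≠ 0 := by
      intro h
      linarith
    rw [Real.zero_rpow h3, sub_zero, show -s + 1 = 1 - s by ring]
  · exact (intervalIntegrable_iff_integrableOn_Ioc_of_le hR).1 h2
  · refine (ae_restrict_iff' measurableSet_Ioc).2 (ae_of_all _ fun t ht => ?_)
    exact Real.rpow_nonneg ht.1.le _

/-- the integral of a power over a symmetric interval -/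
lemma pw1 {s R : ℝ} (hs : s < 1) (hR : 0 ≤ R) :
    ∫⁻ t in Icc (-R) R, (ENNReal.ofReal |t|) ^ (-s) ≤ 2 * ENNReal.ofReal (R ^ (1 - s) / (1 - s)) := by
  have hsub : Icc (-R) R ⊆ (Ico (-R) 0 ∪ Ioc 0 R) ∪ {0} := by
    intro t ht
    rcases lt_trichotomy t 0 with h | h | h
    · exact Or.inl (Or.inl ⟨ht.1, h⟩)
    · exact Or.inr h
    · exact Or.inl (Or.inr ⟨h, ht.2⟩)
  have e1 : ∫⁻ t in Ioc 0 R, (ENNReal.ofReal |t|) ^ (-s) = ENNReal.ofReal (R ^ (1 - s) / (1 - s)) := by
    rw [← pw0 hs hR]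
    refine setLIntegral_congr_fun measurableSet_Ioc fun t ht => ?_
    show (ENNReal.ofReal |t|) ^ (-s) = _
    rw [abs_of_pos ht.1]
  have e2 : ∫⁻ t in Ico (-R) 0, (ENNReal.ofReal |t|) ^ (-s) = ENNReal.ofReal (R ^ (1 - s) / (1 - s)) := by
    rw [← e1]
    have hm : Measurable (fun t : ℝ => (ENNReal.ofReal |t|) ^ (-s)) :=
      (measurable_id.abs.ennreal_ofReal).pow_const _
    have h1 := (Measure.measurePreserving_neg (volume : Measure ℝ)).setLIntegral_comp_preimage
      (s := Ioc 0 R) measurableSet_Ioc hm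
    rw [← h1]
    have h2 : (Neg.neg ⁻¹' Ioc 0 R : Set ℝ) = Ico (-R) 0 := by
      ext t
      simp only [mem_preimage, mem_Ioc, mem_Ico]
      constructor
      · rintro ⟨a, b⟩; constructor <;> linarith
      · rintro ⟨a, b⟩; constructor <;> linarith
    rw [h2]
    refine lintegral_congr fun t => ?_
    rw [abs_neg]
  calc ∫⁻ t in Icc (-R) R, (ENNReal.ofReal |t|) ^ (-s)
      ≤ ∫⁻ t in (Ico (-R) 0 ∪ Ioc 0 R) ∪ {0}, (ENNReal.ofReal |t|) ^ (-s) := lintegral_mono_set hsub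
    _ ≤ (∫⁻ t in Ico (-R) 0 ∪ Ioc 0 R, (ENNReal.ofReal |t|) ^ (-s)) +
        ∫⁻ t in {(0 : ℝ)}, (ENNReal.ofReal |t|) ^ (-s) := lintegral_union_le _ _ _
    _ = ∫⁻ t in Ico (-R) 0 ∪ Ioc 0 R, (ENNReal.ofReal |t|) ^ (-s) := by
        rw [Measure.restrict_singleton]
        simp
    _ ≤ (∫⁻ t in Ico (-R) 0, (ENNReal.ofReal |t|) ^ (-s)) +
        ∫⁻ t in Ioc 0 R, (ENNReal.ofReal |t|) ^ (-s) := lintegral_union_le _ _ _
    _ = _ := by rw [e1, e2, two_mul]

/-- the same with any centre -/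
lemma pw2 {s R : ℝ} (hs0 : 0 ≤ s) (hs : s < 1) (hR : 0 < R) (a b : ℝ) :
    ∫⁻ t in Icc (a - R) (a + R), (ENNReal.ofReal |t - b|) ^ (-s) ≤
      2 * ENNReal.ofReal (R ^ (1 - s) / (1 - s)) + 2 * ENNReal.ofReal (R ^ (1 - s)) := by
  have hm : Measurable (fun t : ℝ => (ENNReal.ofReal |t|) ^ (-s)) :=
    (measurable_id.abs.ennreal_ofReal).pow_const _
  have hsub : Icc (a - R) (a + R) ⊆ Icc (b - R) (b + R) ∪ (Icc (a - R) (a + R) \ Icc (b - R) (b + R)) := by
    intro t ht
    by_cases h : t ∈ Icc (b - R) (b + R)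
    · exact Or.inl h
    · exact Or.inr ⟨ht, h⟩
  have e1 : ∫⁻ t in Icc (b - R) (b + R), (ENNReal.ofReal |t - b|) ^ (-s) ≤
      2 * ENNReal.ofReal (R ^ (1 - s) / (1 - s)) := by
    refine le_trans (le_of_eq ?_) (pw1 hs hR.le)
    have h1 := (measurePreserving_sub_right (volume : Measure ℝ) b).setLIntegral_comp_preimage
      (s := Icc (-R) R) measurableSet_Icc hm
    rw [← h1]
    have h2 : ((fun t : ℝ => t - b) ⁻¹' Icc (-R) R : Set ℝ) = Icc (b - R) (b + R) := by
      ext t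
      simp only [mem_preimage, mem_Icc]
      constructor
      · rintro ⟨a, b⟩; constructor <;> linarith
      · rintro ⟨a, b⟩; constructor <;> linarith
    rw [h2]
  have e2 : ∫⁻ t in Icc (a - R) (a + R) \ Icc (b - R) (b + R), (ENNReal.ofReal |t - b|) ^ (-s) ≤
      2 * ENNReal.ofReal (R ^ (1 - s)) := by
    calc ∫⁻ t in Icc (a - R) (a + R) \ Icc (b - R) (b + R), (ENNReal.ofReal |t - b|) ^ (-s)
        ≤ ∫⁻ t in Icc (a - R) (a + R) \ Icc (b - R) (b + R), (ENNReal.ofReal R) ^ (-s) := by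
          refine setLIntegral_mono measurable_const fun t ht => ?_
          have h3 : R ≤ |t - b| := by
            by_contra h
            rw [not_le, abs_lt] at h
            exact ht.2 ⟨by linarith, by linarith⟩
          exact rp_anti (ENNReal.ofReal_le_ofReal h3) hs0
      _ ≤ ∫⁻ t in Icc (a - R) (a + R), (ENNReal.ofReal R) ^ (-s) := lintegral_mono_set diff_subset
      _ = _ := by
          rw [setLIntegral_const, Real.volume_Icc, ENNReal.ofReal_rpow_of_pos hR,
            show a + R - (a - R) = 2 * R by ring, ← ENNReal.ofReal_mul (by positivity)]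
          have h4 : (2 : ℝ≥0∞) = ENNReal.ofReal 2 := by simp
          rw [h4, ← ENNReal.ofReal_mul (by norm_num)]
          congr 1
          rw [show (1 : ℝ) - s = -s + 1 by ring, Real.rpow_add hR, Real.rpow_one]
          ring
  calc _ ≤ ∫⁻ t in Icc (b - R) (b + R) ∪ (Icc (a - R) (a + R) \ Icc (b - R) (b + R)),
        (ENNReal.ofReal |t - b|) ^ (-s) := lintegral_mono_set hsub
    _ ≤ _ := (lintegral_union_le _ _ _).trans (add_le_add e1 e2)

/-- the angular integral -/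
noncomputable def cth : ℝ≥0∞ := ∫⁻ a in Ioc 0 (2 * Real.pi), (ENNReal.ofReal (1 - Real.cos a)) ^ (-(7 / 16) : ℝ)

lemma per_shift (f : ℝ → ℝ≥0∞) (hf : ∀ x, f (x + 2 * Real.pi) = f x) (a b : ℝ) :
    ∫⁻ x in Ioc a (a + 2 * Real.pi), f x = ∫⁻ x in Ioc b (b + 2 * Real.pi), f x := by
  have hT : (0 : ℝ) < 2 * Real.pi := by positivity
  have h1 := isAddFundamentalDomain_Ioc hT a (volume : Measure ℝ)
  have h2 := isAddFundamentalDomain_Ioc hT b (volume : Measure ℝ)
  refine h1.setLIntegral_eq h2 f ?_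
  rintro ⟨g, hg⟩ x
  obtain ⟨k, rfl⟩ := AddSubgroup.mem_zmultiples_iff.1 hg
  show f (k • (2 * Real.pi) + x) = f x
  have hp : Function.Periodic f (2 * Real.pi) := hf
  rw [add_comm]
  exact (hp.zsmul k) x

lemma cth_shift (c : ℝ) :
    ∫⁻ a in Ioc 0 (2 * Real.pi), (ENNReal.ofReal (1 - Real.cos (a - c))) ^ (-(7 / 16) : ℝ) = cth := by
  have hm : Measurable (fun t : ℝ => (ENNReal.ofReal (1 - Real.cos t)) ^ (-(7 / 16) : ℝ)) := by
    have : Measurable (fun t : ℝ => 1 - Real.cos t) := by fun_prop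
    exact this.ennreal_ofReal.pow_const _
  have h1 := (measurePreserving_sub_right (volume : Measure ℝ) c).setLIntegral_comp_preimage
    (s := Ioc (-c) (-c + 2 * Real.pi)) measurableSet_Ioc hm
  have h2 : ((fun t : ℝ => t - c) ⁻¹' Ioc (-c) (-c + 2 * Real.pi) : Set ℝ) = Ioc 0 (2 * Real.pi) := by
    ext t
    simp only [mem_preimage, mem_Ioc]
    constructor
    · rintro ⟨a, b⟩; constructor <;> linarith
    · rintro ⟨a, b⟩; constructor <;> linarith
  rw [h2] at h1
  rw [h1, per_shift _ (fun x => by rw [Real.cos_add_two_pi]) (-c) 0, zero_add]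
  rfl

lemma cth_fin : cth < ⊤ := by
  have h0 := cth_shift 0
  unfold cth
  have h1 := per_shift (fun t : ℝ => (ENNReal.ofReal (1 - Real.cos t)) ^ (-(7 / 16) : ℝ))
    (fun x => by rw [Real.cos_add_two_pi]) 0 (-Real.pi)
  rw [zero_add, show -Real.pi + 2 * Real.pi = Real.pi by ring] at h1
  rw [h1]
  have hpi := Real.pi_pos
  calc ∫⁻ t in Ioc (-Real.pi) Real.pi, (ENNReal.ofReal (1 - Real.cos t)) ^ (-(7 / 16) : ℝ)
      ≤ ∫⁻ t in Icc (-Real.pi) Real.pi, (ENNReal.ofReal (2 / Real.pi ^ 2)) ^ (-(7 / 16) : ℝ) *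
          (ENNReal.ofReal |t|) ^ (-(7 / 8) : ℝ) := by
        refine (lintegral_mono_set Ioc_subset_Icc_self).trans ?_
        refine setLIntegral_mono' measurableSet_Icc fun t ht => ?_
        have h2 : Real.cos t ≤ 1 - 2 / Real.pi ^ 2 * t ^ 2 :=
          Real.cos_le_one_sub_mul_cos_sq (abs_le.2 ⟨ht.1, ht.2⟩)
        have h3 : 2 / Real.pi ^ 2 * |t| ^ 2 ≤ 1 - Real.cos t := by
          rw [sq_abs]
          linarith
        refine (rp_anti (ENNReal.ofReal_le_ofReal h3) (by norm_num)).trans (le_of_eq ?_)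
        rw [ENNReal.ofReal_mul (by positivity), ENNReal.mul_rpow_of_ne_top ENNReal.ofReal_ne_top
          ENNReal.ofReal_ne_top, ENNReal.ofReal_pow (abs_nonneg _)]
        congr 1
        rw [← ENNReal.rpow_natCast, ← ENNReal.rpow_mul]
        norm_num
    _ = (ENNReal.ofReal (2 / Real.pi ^ 2)) ^ (-(7 / 16) : ℝ) *
          ∫⁻ t in Icc (-Real.pi) Real.pi, (ENNReal.ofReal |t|) ^ (-(7 / 8) : ℝ) := by
        rw [lintegral_const_mul]
        exact (measurable_id.abs.ennreal_ofReal).pow_const _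
    _ < ⊤ := by
        apply ENNReal.mul_lt_top
        · rw [ENNReal.ofReal_rpow_of_pos (by positivity)]
          exact ENNReal.ofReal_lt_top
        · refine lt_of_le_of_lt (pw1 (by norm_num) hpi.le) ?_
          exact ENNReal.mul_lt_top (by norm_num) ENNReal.ofReal_lt_top

end Pool.Agent.V8H36.OW
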