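import Pool.Agent.V8H36.OW.Newt
import Pool.Agent.V8H36.OW.Pw

set_option autoImplicit false
set_option linter.all false
set_option maxHeartbeats 4000000

/-!
Job KER of project OW (helper53), part 4: the averaged kernel.
-/

open MeasureTheory Set Metric Filter Topology
open scoped ContDiff ENNReal
open H459R3.NS Pool.Agent.W268.NS

namespace Pool.Agent.V8H36.OW

open Pool.Agent.Q67.AXI Pool.Agent.TH305.AX
open Pool.Agent.Q153.VD (nn nn_nonneg nn_smooth)

/-- the averaged kernel -/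
noncomputable def Jk (x y : V) : ℝ≥0∞ := ∫⁻ a in Ioc 0 (2 * Real.pi), nk (x - rot a y)

lemma sg_nonneg (x : V) : 0 ≤ sg x := by unfold sg; positivity

lemma avg (G : V → ℝ≥0∞) (hG : Measurable G) (hr : ∀ a x, G (rot a x) = G x) (x : V) :
    ENNReal.ofReal (2 * Real.pi) * ∫⁻ y, G y * nk (x - y) = ∫⁻ y, G y * Jk x y := by
  have hpi := Real.pi_pos
  have h1 : ∀ a : ℝ, ∫⁻ y, G y * nk (x - y) = ∫⁻ y, G y * nk (x - rot a y) := by
    intro a
    rw [← lint_rot a (fun y => G y * nk (x - y)) (hG.mul (nk_meas.comp (measurable_const.sub measurable_id)))]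
    refine lintegral_congr fun y => ?_
    rw [hr]
  have h2 : ENNReal.ofReal (2 * Real.pi) * ∫⁻ y, G y * nk (x - y) =
      ∫⁻ a in Ioc 0 (2 * Real.pi), ∫⁻ y, G y * nk (x - rot a y) := by
    rw [← setLIntegral_congr_fun measurableSet_Ioc (fun a _ => h1 a), setLIntegral_const, Real.volume_Ioc,
      sub_zero, mul_comm]
  rw [h2, lintegral_lintegral_swap]
  · refine lintegral_congr fun y => ?_
    unfold Jk
    rw [lintegral_const_mul]
    have : Measurable (fun a : ℝ => rot a y) :=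
      (rot_cont.comp (continuous_id.prodMk continuous_const)).measurable
    exact nk_meas.comp (measurable_const.sub this)
  · have h3 : Measurable (fun p : ℝ × V => G p.2 * nk (x - rot p.1 p.2)) :=
      (hG.comp measurable_snd).mul (nk_meas.comp (measurable_const.sub rot_cont.measurable))
    exact h3.aemeasurable

/-- weighted arithmetic and geometric means -/
lemma amgm (A B : ℝ) (hA : 0 ≤ A) (hB : 0 ≤ B) (C : ℝ) (hC : A + B ≤ C) :
    (ENNReal.ofReal C) ^ (-(1 / 2) : ℝ) ≤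
      (ENNReal.ofReal A) ^ (-(1 / 16) : ℝ) * (ENNReal.ofReal B) ^ (-(7 / 16) : ℝ) := by
  set M := ENNReal.ofReal C with hM
  have h1 : ENNReal.ofReal A ≤ M := ENNReal.ofReal_le_ofReal (by linarith)
  have h2 : ENNReal.ofReal B ≤ M := ENNReal.ofReal_le_ofReal (by linarith)
  have h3 : M ^ (-(1 / 2) : ℝ) = M ^ (-(1 / 16) : ℝ) * M ^ (-(7 / 16) : ℝ) := by
    rcases eq_or_ne M 0 with h | h
    · rw [h, ENNReal.zero_rpow_of_neg (by norm_num), ENNReal.zero_rpow_of_neg (by norm_num),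
        ENNReal.zero_rpow_of_neg (by norm_num)]
      simp
    · rw [← ENNReal.rpow_add _ _ h ENNReal.ofReal_ne_top]
      norm_num
  rw [h3]
  exact mul_le_mul' (rp_anti h1 (by norm_num)) (rp_anti h2 (by norm_num))

lemma ofReal_sq_rpow (t : ℝ) (s : ℝ) : (ENNReal.ofReal (t ^ 2)) ^ s = (ENNReal.ofReal |t|) ^ (2 * s) := by
  rw [← sq_abs, ENNReal.ofReal_pow (abs_nonneg _), ← ENNReal.rpow_natCast, ← ENNReal.rpow_mul]
  norm_num

/-- the bound near the axis -/
lemma Jk_near (x y : V) : Jk x y ≤ (ENNReal.ofReal |x 2 - y 2|) ^ (-(1 / 8) : ℝ) *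
    ((ENNReal.ofReal (√(sg x) * √(sg y))) ^ (-(7 / 16) : ℝ) * cth) := by
  obtain ⟨c, hc⟩ := dist_rot x y
  have hx := Real.sq_sqrt (sg_nonneg x)
  have hy := Real.sq_sqrt (sg_nonneg y)
  have hx0 := Real.sqrt_nonneg (sg x)
  have hy0 := Real.sqrt_nonneg (sg y)
  have hcosm : Measurable (fun a : ℝ => (ENNReal.ofReal (1 - Real.cos (a - c))) ^ (-(7 / 16) : ℝ)) := by
    have : Measurable (fun t : ℝ => 1 - Real.cos (t - c)) := by fun_prop
    exact this.ennreal_ofReal.pow_const _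
  have key : ∀ a, nk (x - rot a y) ≤ (ENNReal.ofReal |x 2 - y 2|) ^ (-(1 / 8) : ℝ) *
      ((ENNReal.ofReal (√(sg x) * √(sg y))) ^ (-(7 / 16) : ℝ) *
        (ENNReal.ofReal (1 - Real.cos (a - c))) ^ (-(7 / 16) : ℝ)) := by
    intro a
    have h0 : 0 ≤ 1 - Real.cos (a - c) := by linarith [Real.cos_le_one (a - c)]
    unfold nk
    rw [hc a]
    have hp : 0 ≤ √(sg x) * √(sg y) := by positivity
    refine (amgm ((x 2 - y 2) ^ 2) (√(sg x) * √(sg y) * (1 - Real.cos (a - c))) (sq_nonneg _)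
      (mul_nonneg hp h0) _ ?_).trans (le_of_eq ?_)
    · have h4 : 0 ≤ (√(sg x) - √(sg y)) ^ 2 := sq_nonneg _
      have h5 : 0 ≤ √(sg x) * √(sg y) * (1 - Real.cos (a - c)) := mul_nonneg hp h0
      nlinarith
    · rw [ofReal_sq_rpow, ENNReal.ofReal_mul hp, ENNReal.mul_rpow_of_ne_top ENNReal.ofReal_ne_top
        ENNReal.ofReal_ne_top]
      norm_num
  unfold Jk
  refine (lintegral_mono key).trans (le_of_eq ?_)
  have hm2 : Measurable (fun a : ℝ => (ENNReal.ofReal (√(sg x) * √(sg y))) ^ (-(7 / 16) : ℝ) *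
      (ENNReal.ofReal (1 - Real.cos (a - c))) ^ (-(7 / 16) : ℝ)) := hcosm.const_mul _
  rw [lintegral_const_mul _ hm2, lintegral_const_mul _ hcosm, cth_shift]

/-- the bound far from the axis -/
lemma Jk_far {r : ℝ} (hr : 0 < r) (x y : V) (hx : √(sg x) < r) (hy : 2 * r ≤ √(sg y)) :
    ENNReal.ofReal (√(sg y)) * Jk x y ≤ ENNReal.ofReal (4 * Real.pi) := by
  obtain ⟨c, hc⟩ := dist_rot x y
  have hpi := Real.pi_pos
  have hx2 := Real.sq_sqrt (sg_nonneg x)
  have hy2 := Real.sq_sqrt (sg_nonneg y)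
  have hx0 := Real.sqrt_nonneg (sg x)
  have hy0 : 0 < √(sg y) := by linarith
  have key : ∀ a, nk (x - rot a y) ≤ ENNReal.ofReal (2 / √(sg y)) := by
    intro a
    unfold nk
    have h1 : (√(sg y) / 2) ^ 2 ≤ nn (x - rot a y) := by
      rw [hc a]
      have h2 := Real.cos_le_one (a - c)
      have h3 : √(sg x) * √(sg y) * Real.cos (a - c) ≤ √(sg x) * √(sg y) * 1 :=
        mul_le_mul_of_nonneg_left h2 (by positivity)
      have h4 : 0 ≤ (x 2 - y 2) ^ 2 := sq_nonneg _
      have h5 : √(sg y) / 2 ≤ √(sg y) - √(sg x) := by linarith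
      have h6 : (√(sg y) / 2) ^ 2 ≤ (√(sg y) - √(sg x)) ^ 2 := pow_le_pow_left₀ (by positivity) h5 2
      nlinarith
    refine (rp_anti (ENNReal.ofReal_le_ofReal h1) (by norm_num)).trans (le_of_eq ?_)
    rw [ENNReal.ofReal_rpow_of_pos (by positivity), Real.rpow_neg (by positivity), ← Real.sqrt_eq_rpow,
      Real.sqrt_sq (by positivity), inv_div]
  have h2 : Jk x y ≤ ENNReal.ofReal (2 / √(sg y)) * ENNReal.ofReal (2 * Real.pi) := by
    unfold Jk
    refine (lintegral_mono key).trans (le_of_eq ?_)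
    rw [setLIntegral_const, Real.volume_Ioc, sub_zero]
  calc ENNReal.ofReal (√(sg y)) * Jk x y ≤
      ENNReal.ofReal (√(sg y)) * (ENNReal.ofReal (2 / √(sg y)) * ENNReal.ofReal (2 * Real.pi)) := by gcongr
    _ = ENNReal.ofReal (4 * Real.pi) := by
        rw [← ENNReal.ofReal_mul (by positivity), ← ENNReal.ofReal_mul (by positivity)]
        congr 1
        field_simp
        ring

/-- the bound of the averaged kernel -/
noncomputable def Bd (r : ℝ) (x y : V) : ℝ≥0∞ :=
  ENNReal.ofReal (4 * Real.pi) + cth * ENNReal.ofReal ((2 * r) ^ (9 / 16 : ℝ)) *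
    ((ENNReal.ofReal |x 2 - y 2|) ^ (-(1 / 8) : ℝ) * (ENNReal.ofReal √(sg x)) ^ (-(7 / 16) : ℝ))

lemma Jk_bd {r : ℝ} (hr : 0 < r) (x y : V) (hx : √(sg x) < r) :
    ENNReal.ofReal (√(sg y)) * Jk x y ≤ Bd r x y := by
  unfold Bd
  rcases le_or_gt (2 * r) (√(sg y)) with h | h
  · exact (Jk_far hr x y hx h).trans le_self_add
  · refine le_trans ?_ le_add_self
    rcases (Real.sqrt_nonneg (sg y)).eq_or_lt with h0 | h0
    · rw [← h0, ENNReal.ofReal_zero, zero_mul]
      exact bot_le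
    · have h1 := Jk_near x y
      have h2 : ENNReal.ofReal (√(sg y)) * (ENNReal.ofReal √(sg y)) ^ (-(7 / 16) : ℝ) ≤
          ENNReal.ofReal ((2 * r) ^ (9 / 16 : ℝ)) := by
        rw [ENNReal.ofReal_rpow_of_pos h0, ← ENNReal.ofReal_mul h0.le]
        apply ENNReal.ofReal_le_ofReal
        have h3 : √(sg y) * √(sg y) ^ (-(7 / 16) : ℝ) = √(sg y) ^ (9 / 16 : ℝ) := by
          nth_rw 1 [← Real.rpow_one (√(sg y))]
          rw [← Real.rpow_add h0]
          norm_num
        rw [h3]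
        exact Real.rpow_le_rpow h0.le h.le (by norm_num)
      calc ENNReal.ofReal (√(sg y)) * Jk x y ≤ ENNReal.ofReal (√(sg y)) *
          ((ENNReal.ofReal |x 2 - y 2|) ^ (-(1 / 8) : ℝ) *
          ((ENNReal.ofReal (√(sg x) * √(sg y))) ^ (-(7 / 16) : ℝ) * cth)) := by gcongr
        _ = cth * (ENNReal.ofReal (√(sg y)) * (ENNReal.ofReal √(sg y)) ^ (-(7 / 16) : ℝ)) *
            ((ENNReal.ofReal |x 2 - y 2|) ^ (-(1 / 8) : ℝ) * (ENNReal.ofReal √(sg x)) ^ (-(7 / 16) : ℝ)) := by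
            rw [ENNReal.ofReal_mul (Real.sqrt_nonneg _), ENNReal.mul_rpow_of_ne_top ENNReal.ofReal_ne_top
              ENNReal.ofReal_ne_top]
            ring
        _ ≤ _ := by gcongr

lemma Bd_meas (r : ℝ) : Measurable (fun p : V × V => Bd r p.1 p.2) := by
  unfold Bd
  have h1 : Measurable (fun p : V × V => |p.1 2 - p.2 2|) := by
    have : Continuous (fun p : V × V => |p.1 2 - p.2 2|) := by fun_prop
    exact this.measurable
  have h2 : Measurable (fun p : V × V => √(sg p.1)) := by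
    have : Continuous (fun p : V × V => √(sg p.1)) := by
      unfold sg
      fun_prop
    exact this.measurable
  exact measurable_const.add (measurable_const.mul ((h1.ennreal_ofReal.pow_const _).mul
    (h2.ennreal_ofReal.pow_const _)))

end Pool.Agent.V8H36.OW
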