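import Pool.Agent.V8H36.OW.Rot
import Pool.Agent.Q182.AXI.AAs
import Pool.Agent.Q257.AXI.AxF

set_option autoImplicit false
set_option linter.all false
set_option maxHeartbeats 4000000

/-!
Job KER of project OW (helper53), part 5: the source term.
-/

open MeasureTheory Set Metric Filter Topology
open scoped ContDiff ENNReal
open H459R3.NS Pool.Agent.W268.NS

namespace Pool.Agent.V8H36.OW

open Pool.Agent.Q67.AXI Pool.Agent.TH305.AX
open Pool.Agent.Q153.VD (nn nn_nonneg smooth_pd pd_mul pd_add smooth_coord pd_coord)

lemma axis_ae : ∀ᵐ x : V, sg x ≠ 0 := by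
  have h1 : volume {f : V | f 0 = 0} = 0 := by
    have := Measure.pi_hyperplane (μ := fun _ : Fin 3 => (volume : Measure ℝ)) 0 (0 : ℝ)
    exact this
  rw [ae_iff]
  refine measure_mono_null ?_ h1
  intro x hx
  simp only [Set.mem_ofPred_eq, ne_eq, not_not] at hx ⊢
  unfold sg at hx
  nlinarith [sq_nonneg (x 0), sq_nonneg (x 1)]

/-- the source term -/
lemma ax_data {F : V → ℝ} (hF : ContDiff ℝ ∞ F) (hc : HasCompactSupport F) (ha : AxF F) :
    ∃ q : V → ℝ, ContDiff ℝ ∞ q ∧ (∀ x, pd 0 F x = x 0 * q x) ∧ (∀ x, pd 1 F x = x 1 * q x) ∧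
      (∀ a x, |lap F (rot a x) + 2 * q (rot a x)| = |lap F x + 2 * q x|) ∧
      (∀ᵐ x : V, LL F x = lap F x + 2 * q x) ∧
      Continuous (fun x => lap F x + 2 * q x) ∧
      Integrable (fun x => lap F x + 2 * q x) := by
  have hA := Pool.Agent.Q257.AXI.t_AxF Pool.Agent.Q182.AXI.aas
  obtain ⟨-, -, ap2, q, hq, aq, hq0⟩ := hA F hF ha
  obtain ⟨-, aRq, -, -⟩ := hA q hq aq
  obtain ⟨-, -, ap22, -⟩ := hA (pd 2 F) (smooth_pd hF 2) ap2
  have e0 : pd 0 F = fun x => x 0 * q x := funext fun x => (hq0 x).1
  have e1 : pd 1 F = fun x => x 1 * q x := funext fun x => (hq0 x).2.1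
  have hlap : ∀ x, lap F x = 2 * q x + RR q x + pd 2 (pd 2 F) x := by
    intro x
    have h1 : lap F x = pd 0 (pd 0 F) x + pd 1 (pd 1 F) x + pd 2 (pd 2 F) x := by
      show ∑ i, pd i (pd i F) x = _
      rw [Fin.sum_univ_three]
    rw [h1, e0, e1, pd_mul (smooth_coord 0) hq, pd_mul (smooth_coord 1) hq, pd_coord, pd_coord]
    unfold RR
    simp
    ring
  have hcont : Continuous (fun x => lap F x + 2 * q x) := by
    have h1 : lap F = fun x => ∑ i, pd i (pd i F) x := rfl
    rw [h1]
    exact (continuous_finsetSum _ fun i _ => (smooth_pd (smooth_pd hF i) i).continuous).add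
      (continuous_const.mul hq.continuous)
  refine ⟨q, hq, fun x => (hq0 x).1, fun x => (hq0 x).2.1, ?_, ?_, hcont, ?_⟩
  · intro a x
    rw [hlap, hlap, aq, aRq, ap22]
  · filter_upwards [axis_ae] with x hx
    unfold LL
    rw [(hq0 x).2.2]
    field_simp
  · have h1 : (tsupport F).indicator (fun x => lap F x + 2 * q x) =ᵐ[volume] fun x => lap F x + 2 * q x := by
      filter_upwards [axis_ae] with x hx
      by_cases h : x ∈ tsupport F
      · rw [indicator_of_mem h]
      · rw [indicator_of_notMem h]
        have h2 : ∀ i, pd i F =ᶠ[𝓝 x] fun _ => 0 := by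
          intro i
          have h3 : ∀ᶠ y in 𝓝 x, y ∈ (tsupport F)ᶜ := (isClosed_tsupport F).isOpen_compl.mem_nhds h
          filter_upwards [h3] with y hy
          unfold pd
          have h4 : fderiv ℝ F y = 0 := by
            by_contra h5
            exact hy ((tsupport_fderiv_subset ℝ (f := F)) (subset_tsupport _ h5))
          rw [h4]
          rfl
        have h3 : ∀ i, pd i (pd i F) x = 0 := by
          intro i
          unfold pd
          have h4 := (h2 i).fderiv_eq (𝕜 := ℝ)
          unfold pd at h4
          rw [h4]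
          simp
        have h4 : lap F x = 0 := by
          show ∑ i, pd i (pd i F) x = 0
          simp [h3]
        have h5 : q x = 0 := by
          have h6 := (hq0 x).1
          have h7 := (hq0 x).2.1
          rw [(h2 0).eq_of_nhds] at h6
          rw [(h2 1).eq_of_nhds] at h7
          by_contra h8
          apply hx
          unfold sg
          have h9 : x 0 = 0 := by
            rcases mul_eq_zero.1 h6.symm with h | h
            · exact h
            · exact absurd h h8
          have h10 : x 1 = 0 := by
            rcases mul_eq_zero.1 h7.symm with h | h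
            · exact h
            · exact absurd h h8
          rw [h9, h10]
          norm_num
        rw [h4, h5]
        norm_num
    refine Integrable.congr ?_ h1
    rw [integrable_indicator_iff (isClosed_tsupport F).measurableSet]
    exact hcont.continuousOn.integrableOn_compact hc

end Pool.Agent.V8H36.OW
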