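import Pool.Agent.V8H36.OW.Ang
import Pool.Agent.V8H36.OW.Ax

set_option autoImplicit false
set_option linter.all false
set_option maxHeartbeats 4000000

/-!
Job KER of project OW (helper53), part 6: the integral of the bound of the averaged kernel.
-/

open MeasureTheory Set Metric Filter Topology
open scoped ContDiff ENNReal
open H459R3.NS Pool.Agent.W268.NS

namespace Pool.Agent.V8H36.OW

open Pool.Agent.Q67.AXI Pool.Agent.TH305.AX
open Pool.Agent.Q153.VD (nn nn_nonneg)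

lemma prod3 (f0 f1 f2 : ℝ → ℝ≥0∞) (h0 : Measurable f0) (h1 : Measurable f1) (h2 : Measurable f2) :
    ∫⁻ x : V, f0 (x 0) * (f1 (x 1) * f2 (x 2)) = (∫⁻ t, f0 t) * ((∫⁻ t, f1 t) * ∫⁻ t, f2 t) := by
  have hm2 : Measurable (fun w : Fin 2 → ℝ => f1 (w 0) * f2 (w 1)) :=
    (h1.comp (measurable_pi_apply 0)).mul (h2.comp (measurable_pi_apply 1))
  have hm3 : Measurable (fun p : ℝ × (Fin 2 → ℝ) => f0 p.1 * (f1 (p.2 0) * f2 (p.2 1))) :=
    (h0.comp measurable_fst).mul (hm2.comp measurable_snd)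
  have e1 := (volume_preserving_piFinSuccAbove (fun _ : Fin 3 => ℝ) 0).lintegral_comp hm3
  have e2 : ∫⁻ x : V, f0 (x 0) * (f1 (x 1) * f2 (x 2)) =
      ∫⁻ p : ℝ × (Fin 2 → ℝ), f0 p.1 * (f1 (p.2 0) * f2 (p.2 1)) := e1
  rw [e2]
  have e3 : ∫⁻ p : ℝ × (Fin 2 → ℝ), f0 p.1 * (f1 (p.2 0) * f2 (p.2 1)) =
      (∫⁻ t, f0 t) * ∫⁻ w : Fin 2 → ℝ, f1 (w 0) * f2 (w 1) :=
    lintegral_prod_mul h0.aemeasurable hm2.aemeasurable
  rw [e3]
  congr 1
  have hm4 : Measurable (fun p : ℝ × ℝ => f1 p.1 * f2 p.2) :=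
    (h1.comp measurable_fst).mul (h2.comp measurable_snd)
  have e4 := (volume_preserving_finTwoArrow ℝ).lintegral_comp hm4
  have e5 : ∫⁻ w : Fin 2 → ℝ, f1 (w 0) * f2 (w 1) = ∫⁻ p : ℝ × ℝ, f1 p.1 * f2 p.2 := e4
  rw [e5]
  exact lintegral_prod_mul h1.aemeasurable h2.aemeasurable

/-- integrals over cylinders -/
lemma co_prod {c r : ℝ} (hr : 0 < r) (f0 f1 f2 : ℝ → ℝ≥0∞) (h0 : Measurable f0) (h1 : Measurable f1)
    (h2 : Measurable f2) :
    ∫⁻ x in Co c r r, f0 (x 0) * (f1 (x 1) * f2 (x 2)) ≤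
      (∫⁻ t in Icc (-r) r, f0 t) * ((∫⁻ t in Icc (-r) r, f1 t) * ∫⁻ t in Icc (c - r) (c + r), f2 t) := by
  rw [← lintegral_indicator measurableSet_Icc f0, ← lintegral_indicator measurableSet_Icc f1,
    ← lintegral_indicator measurableSet_Icc f2,
    ← prod3 _ _ _ (h0.indicator measurableSet_Icc) (h1.indicator measurableSet_Icc)
      (h2.indicator measurableSet_Icc)]
  have hmeas : MeasurableSet (Co c r r) := by
    have h1 : IsOpen {x : V | sg x < r ^ 2} :=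
      isOpen_lt (by unfold sg; fun_prop) continuous_const
    have h2 : IsOpen {x : V | |x 2 - c| < r} := isOpen_lt (by fun_prop) continuous_const
    exact (h1.inter h2).measurableSet
  rw [← lintegral_indicator hmeas]
  refine lintegral_mono fun x => ?_
  by_cases hx : x ∈ Co c r r
  · rw [indicator_of_mem hx]
    obtain ⟨hx1, hx2⟩ := hx
    rw [abs_lt] at hx2
    unfold sg at hx1
    have m0 : x 0 ∈ Icc (-r) r := by
      have : |x 0| ≤ r := abs_le_of_sq_le_sq (by nlinarith [sq_nonneg (x 1)]) hr.le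
      exact abs_le.1 this
    have m1 : x 1 ∈ Icc (-r) r := by
      have : |x 1| ≤ r := abs_le_of_sq_le_sq (by nlinarith [sq_nonneg (x 0)]) hr.le
      exact abs_le.1 this
    have m2 : x 2 ∈ Icc (c - r) (c + r) := ⟨by linarith, by linarith⟩
    rw [indicator_of_mem m0, indicator_of_mem m1, indicator_of_mem m2]
  · rw [indicator_of_notMem hx]
    exact bot_le

lemma co_meas (c r h : ℝ) : MeasurableSet (Co c r h) := by
  have h1 : IsOpen {x : V | sg x < r ^ 2} :=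
    isOpen_lt (by unfold sg; fun_prop) continuous_const
  have h2 : IsOpen {x : V | |x 2 - c| < h} := isOpen_lt (by fun_prop) continuous_const
  exact (h1.inter h2).measurableSet

/-- the constant -/
noncomputable def KK : ℝ≥0∞ := 64 * ENNReal.ofReal (4 * Real.pi) ^ 4 +
  8 * cth ^ 4 * ENNReal.ofReal ((2 : ℝ) ^ (9 / 4 : ℝ) * 1536)

lemma KK_fin : KK ≠ ⊤ := by
  unfold KK
  apply ne_of_lt
  apply ENNReal.add_lt_top.2
  constructor
  · exact ENNReal.mul_lt_top (by norm_num) (ENNReal.pow_lt_top ENNReal.ofReal_lt_top)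
  · exact ENNReal.mul_lt_top (ENNReal.mul_lt_top (by norm_num) (ENNReal.pow_lt_top cth_fin))
      ENNReal.ofReal_lt_top

lemma rpow4 (a : ℝ≥0∞) (s : ℝ) : (a ^ s) ^ 4 = a ^ (4 * s) := by
  rw [← ENNReal.rpow_natCast, ← ENNReal.rpow_mul]
  congr 1
  push_cast
  ring

lemma sg_pow (x : V) : (ENNReal.ofReal √(sg x)) ^ (-(7 / 4) : ℝ) ≤
    (ENNReal.ofReal |x 0|) ^ (-(7 / 8) : ℝ) * (ENNReal.ofReal |x 1|) ^ (-(7 / 8) : ℝ) := by
  set M := ENNReal.ofReal √(sg x) with hM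
  have h1 : ENNReal.ofReal |x 0| ≤ M := by
    apply ENNReal.ofReal_le_ofReal
    apply Real.abs_le_sqrt
    unfold sg
    have := sq_nonneg (x 1)
    linarith
  have h2 : ENNReal.ofReal |x 1| ≤ M := by
    apply ENNReal.ofReal_le_ofReal
    apply Real.abs_le_sqrt
    unfold sg
    have := sq_nonneg (x 0)
    linarith
  have h3 : M ^ (-(7 / 4) : ℝ) = M ^ (-(7 / 8) : ℝ) * M ^ (-(7 / 8) : ℝ) := by
    rcases eq_or_ne M 0 with h | h
    · rw [h, ENNReal.zero_rpow_of_neg (by norm_num), ENNReal.zero_rpow_of_neg (by norm_num)]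
      simp
    · rw [← ENNReal.rpow_add _ _ h ENNReal.ofReal_ne_top]
      norm_num
  rw [h3]
  exact mul_le_mul' (rp_anti h1 (by norm_num)) (rp_anti h2 (by norm_num))

lemma add_pow4 (a b : ℝ≥0∞) : (a + b) ^ 4 ≤ 8 * (a ^ 4 + b ^ 4) := by
  have h := ENNReal.rpow_add_le_mul_rpow_add_rpow a b (p := 4) (by norm_num)
  have e : ∀ c : ℝ≥0∞, c ^ (4 : ℝ) = c ^ 4 := fun c => by
    rw [← ENNReal.rpow_natCast]
    norm_num
  rw [e, e, e] at h
  have e2 : (2 : ℝ≥0∞) ^ ((4 : ℝ) - 1) = 8 := by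
    rw [show (4 : ℝ) - 1 = ((3 : ℕ) : ℝ) by norm_num, ENNReal.rpow_natCast]
    norm_num
  rw [e2] at h
  exact h

/-- the integral of the fourth power of the bound -/
lemma Bd_int {c r : ℝ} (hr : 0 < r) (y : V) : ∫⁻ x in Co c r r, Bd r x y ^ 4 ≤ ENNReal.ofReal (r ^ 3) * KK := by
  obtain ⟨N, hN⟩ : ∃ N : ℝ≥0∞, N = cth * ENNReal.ofReal ((2 * r) ^ (9 / 16 : ℝ)) := ⟨_, rfl⟩
  have hm7 : Measurable (fun t : ℝ => (ENNReal.ofReal |t|) ^ (-(7 / 8) : ℝ)) :=
    (measurable_id.abs.ennreal_ofReal).pow_const _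
  have hm1 : Measurable (fun t : ℝ => (ENNReal.ofReal |t - y 2|) ^ (-(1 / 2) : ℝ)) := by
    have : Measurable (fun t : ℝ => |t - y 2|) := by fun_prop
    exact this.ennreal_ofReal.pow_const _
  have key : ∀ x, Bd r x y ^ 4 ≤ 8 * ENNReal.ofReal (4 * Real.pi) ^ 4 + 8 * N ^ 4 *
      ((ENNReal.ofReal |x 0|) ^ (-(7 / 8) : ℝ) * ((ENNReal.ofReal |x 1|) ^ (-(7 / 8) : ℝ) *
        (ENNReal.ofReal |x 2 - y 2|) ^ (-(1 / 2) : ℝ))) := by
    intro x
    unfold Bd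
    rw [← hN]
    refine (add_pow4 _ _).trans ?_
    rw [mul_add]
    refine add_le_add le_rfl ?_
    rw [mul_pow, mul_pow, rpow4, rpow4, mul_assoc]
    gcongr 8 * (_ * ?_)
    rw [show (4 : ℝ) * (-(1 / 8)) = -(1 / 2) by norm_num, show (4 : ℝ) * (-(7 / 16)) = -(7 / 4) by norm_num]
    have h1 := sg_pow x
    calc (ENNReal.ofReal |x 2 - y 2|) ^ (-(1 / 2) : ℝ) * (ENNReal.ofReal √(sg x)) ^ (-(7 / 4) : ℝ)
        ≤ (ENNReal.ofReal |x 2 - y 2|) ^ (-(1 / 2) : ℝ) *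
          ((ENNReal.ofReal |x 0|) ^ (-(7 / 8) : ℝ) * (ENNReal.ofReal |x 1|) ^ (-(7 / 8) : ℝ)) := by gcongr
      _ = _ := by ring
  have hm : Measurable (fun x : V => (ENNReal.ofReal |x 0|) ^ (-(7 / 8) : ℝ) *
      ((ENNReal.ofReal |x 1|) ^ (-(7 / 8) : ℝ) * (ENNReal.ofReal |x 2 - y 2|) ^ (-(1 / 2) : ℝ))) :=
    (hm7.comp (measurable_pi_apply 0)).mul ((hm7.comp (measurable_pi_apply 1)).mul
      (hm1.comp (measurable_pi_apply 2)))
  have hvol : volume (Co c r r) ≤ ENNReal.ofReal (8 * r ^ 3) := by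
    have h1 := co_prod (c := c) hr (fun _ => 1) (fun _ => 1) (fun _ => 1) measurable_const
      measurable_const measurable_const
    simp only [mul_one, lintegral_const, one_mul, Measure.restrict_apply_univ, Real.volume_Icc] at h1
    refine h1.trans (le_of_eq ?_)
    rw [← ENNReal.ofReal_mul (by linarith), ← ENNReal.ofReal_mul (by linarith)]
    congr 1
    ring
  have hB := co_prod (c := c) hr (fun t => (ENNReal.ofReal |t|) ^ (-(7 / 8) : ℝ))
    (fun t => (ENNReal.ofReal |t|) ^ (-(7 / 8) : ℝ)) (fun t => (ENNReal.ofReal |t - y 2|) ^ (-(1 / 2) : ℝ))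
    hm7 hm7 hm1
  have b1 : ∫⁻ t in Icc (-r) r, (ENNReal.ofReal |t|) ^ (-(7 / 8) : ℝ) ≤ ENNReal.ofReal (16 * r ^ (1 / 8 : ℝ)) := by
    refine (pw1 (by norm_num) hr.le).trans (le_of_eq ?_)
    have h4 : (2 : ℝ≥0∞) = ENNReal.ofReal 2 := by simp
    rw [h4, ← ENNReal.ofReal_mul (by norm_num)]
    congr 1
    rw [show (1 : ℝ) - 7 / 8 = 1 / 8 by norm_num]
    ring
  have b2 : ∫⁻ t in Icc (c - r) (c + r), (ENNReal.ofReal |t - y 2|) ^ (-(1 / 2) : ℝ) ≤
      ENNReal.ofReal (6 * r ^ (1 / 2 : ℝ)) := by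
    refine (pw2 (by norm_num) (by norm_num) hr c (y 2)).trans (le_of_eq ?_)
    have h4 : (2 : ℝ≥0∞) = ENNReal.ofReal 2 := by simp
    rw [h4, ← ENNReal.ofReal_mul (by norm_num), ← ENNReal.ofReal_mul (by norm_num),
      ← ENNReal.ofReal_add (by positivity) (by positivity)]
    congr 1
    rw [show (1 : ℝ) - 1 / 2 = 1 / 2 by norm_num]
    ring
  calc ∫⁻ x in Co c r r, Bd r x y ^ 4
      ≤ ∫⁻ x in Co c r r, (8 * ENNReal.ofReal (4 * Real.pi) ^ 4 + 8 * N ^ 4 *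
          ((ENNReal.ofReal |x 0|) ^ (-(7 / 8) : ℝ) * ((ENNReal.ofReal |x 1|) ^ (-(7 / 8) : ℝ) *
            (ENNReal.ofReal |x 2 - y 2|) ^ (-(1 / 2) : ℝ)))) := lintegral_mono key
    _ = 8 * ENNReal.ofReal (4 * Real.pi) ^ 4 * volume (Co c r r) + 8 * N ^ 4 *
          ∫⁻ x in Co c r r, ((ENNReal.ofReal |x 0|) ^ (-(7 / 8) : ℝ) *
            ((ENNReal.ofReal |x 1|) ^ (-(7 / 8) : ℝ) * (ENNReal.ofReal |x 2 - y 2|) ^ (-(1 / 2) : ℝ))) := by
        rw [lintegral_add_left measurable_const, setLIntegral_const, lintegral_const_mul _ hm]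
    _ ≤ 8 * ENNReal.ofReal (4 * Real.pi) ^ 4 * ENNReal.ofReal (8 * r ^ 3) + 8 * N ^ 4 *
          (ENNReal.ofReal (16 * r ^ (1 / 8 : ℝ)) * (ENNReal.ofReal (16 * r ^ (1 / 8 : ℝ)) *
            ENNReal.ofReal (6 * r ^ (1 / 2 : ℝ)))) := by
        gcongr
        exact hB.trans (mul_le_mul' b1 (mul_le_mul' b1 b2))
    _ = ENNReal.ofReal (r ^ 3) * KK := by
        unfold KK
        have e1 : ENNReal.ofReal (8 * r ^ 3) = 8 * ENNReal.ofReal (r ^ 3) := by
          rw [ENNReal.ofReal_mul (by norm_num)]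
          simp
        have e2 : ENNReal.ofReal ((2 * r) ^ (9 / 16 : ℝ)) ^ 4 *
            (ENNReal.ofReal (16 * r ^ (1 / 8 : ℝ)) * (ENNReal.ofReal (16 * r ^ (1 / 8 : ℝ)) *
            ENNReal.ofReal (6 * r ^ (1 / 2 : ℝ)))) =
            ENNReal.ofReal (r ^ 3) * ENNReal.ofReal ((2 : ℝ) ^ (9 / 4 : ℝ) * 1536) := by
          rw [← ENNReal.ofReal_pow (by positivity), ← ENNReal.ofReal_mul (by positivity),
            ← ENNReal.ofReal_mul (by positivity), ← ENNReal.ofReal_mul (by positivity),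
            ← ENNReal.ofReal_mul (by positivity)]
          congr 1
          have f1 : ((2 * r) ^ (9 / 16 : ℝ)) ^ 4 = (2 : ℝ) ^ (9 / 4 : ℝ) * r ^ (9 / 4 : ℝ) := by
            rw [← Real.rpow_natCast, ← Real.rpow_mul (by positivity), Real.mul_rpow (by norm_num) hr.le]
            norm_num
          have f2 : r ^ (9 / 4 : ℝ) * (r ^ (1 / 8 : ℝ) * r ^ (1 / 8 : ℝ) * r ^ (1 / 2 : ℝ)) = r ^ 3 := by
            rw [← Real.rpow_add hr, ← Real.rpow_add hr, ← Real.rpow_add hr, ← Real.rpow_natCast]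
            norm_num
          rw [f1]
          linear_combination (2 : ℝ) ^ (9 / 4 : ℝ) * 1536 * f2
        have e3 : ∀ X Y Z : ℝ≥0∞, 8 * (Z * X) * Y = 8 * Z * (X * Y) := fun X Y Z => by ring
        rw [e1, hN, mul_pow, e3, e2]
        ring

end Pool.Agent.V8H36.OW
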