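import Pool.Agent.V8H36.OW.Rot

set_option autoImplicit false
set_option linter.all false
set_option maxHeartbeats 4000000

/-!
Job KER of project OW (helper53), part 2: Newton's potential.
-/

open MeasureTheory Set Metric Filter Topology
open scoped ContDiff ENNReal
open H459R3.NS Pool.Agent.W268.NS

namespace Pool.Agent.V8H36.OW

open Pool.Agent.Q67.AXI Pool.Agent.TH305.AX
open Pool.Agent.Q153.VD (nn nn_nonneg nn_smooth P P_pos D D_pos D_int D_smooth D_scale D_int_pos E smoothP smoothE smooth_pd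
  pd_P div_E ibp_cs pd_mul pd_add smooth_coord pd_coord diff_of)

/-- Newton's kernel -/
noncomputable def nk (z : V) : ℝ≥0∞ := (ENNReal.ofReal (nn z)) ^ (-(1 / 2) : ℝ)

lemma nk_meas : Measurable nk := by
  unfold nk
  exact (nn_smooth.continuous.measurable.ennreal_ofReal).pow_const _

lemma P_le_nk {ε : ℝ} (hε : 0 < ε) (z : V) : ENNReal.ofReal (P ε z) ≤ nk z := by
  unfold nk
  rcases (nn_nonneg z).eq_or_lt with h | h
  · rw [← h, ENNReal.ofReal_zero, ENNReal.zero_rpow_of_neg (by norm_num)]
    exact le_top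
  · rw [ENNReal.ofReal_rpow_of_pos h]
    apply ENNReal.ofReal_le_ofReal
    rw [Real.rpow_neg h.le, ← Real.sqrt_eq_rpow]
    unfold P Pool.Agent.Q153.VD.s
    apply inv_anti₀ (Real.sqrt_pos.2 h)
    apply Real.sqrt_le_sqrt
    have := sq_nonneg ε
    linarith

lemma lap_sum (w : V → ℝ) (z : V) : lap w z = ∑ i, pd i (pd i w) z := rfl

lemma green {ε : ℝ} (hε : 0 < ε) {w : V → ℝ} (hw : ContDiff ℝ ∞ w) (hc : HasCompactSupport w) :
    ∫ z, P ε z * lap w z = -∫ z, w z * D ε z := by
  have hc1 : ∀ i, HasCompactSupport (pd i w) := fun i => hc.fderiv_apply ℝ (Pi.single i 1)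
  have hc2 : ∀ i, HasCompactSupport (pd i (pd i w)) := fun i => (hc1 i).fderiv_apply ℝ (Pi.single i 1)
  have e1 : ∀ i, ∫ z, P ε z * pd i (pd i w) z = ∫ z, pd i (E ε i) z * w z := by
    intro i
    rw [ibp_cs (smoothP hε) (smooth_pd hw i) (hc1 i) i]
    have h1 : pd i (P ε) = E ε i := funext fun z => pd_P hε i z
    rw [h1, ibp_cs (smoothE hε i) hw hc i, neg_neg]
  have i1 : ∀ i, Integrable (fun z => P ε z * pd i (pd i w) z) := fun i =>
    ((smoothP hε).continuous.mul (smooth_pd (smooth_pd hw i) i).continuous).integrable_of_hasCompactSupport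
      (hc2 i).mul_left
  have i2 : ∀ i, Integrable (fun z => pd i (E ε i) z * w z) := fun i =>
    ((smooth_pd (smoothE hε i) i).continuous.mul hw.continuous).integrable_of_hasCompactSupport
      hc.mul_left
  have e2 : ∫ z, P ε z * lap w z = ∑ i, ∫ z, P ε z * pd i (pd i w) z := by
    rw [← integral_finset_sum _ (fun i _ => i1 i)]
    congr 1
    funext z
    rw [lap_sum, Finset.mul_sum]
  rw [e2, Finset.sum_congr rfl (fun i _ => e1 i), ← integral_finset_sum _ (fun i _ => i2 i), ← integral_neg]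
  congr 1
  funext z
  rw [← Finset.sum_mul, div_E hε]
  ring

lemma lim_w {w : V → ℝ} (hw : Continuous w) (hc : HasCompactSupport w) :
    Tendsto (fun n : ℕ => ∫ z, w z * D (1 / ((n : ℝ) + 1)) z) atTop
      (𝓝 (w 0 * ∫ z : V, D 1 z)) := by
  have h1 : ∀ n : ℕ, ∫ z, w z * D (1 / ((n : ℝ) + 1)) z =
      ∫ z, w ((1 / ((n : ℝ) + 1)) • z) * D 1 z := by
    intro n
    set ε : ℝ := 1 / ((n : ℝ) + 1) with hε'
    have hε : 0 < ε := by positivity
    have h2 := Measure.integral_comp_smul (volume : Measure V)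
      (fun z => w z * D ε z) ε
    have h3 : Module.finrank ℝ V = 3 := by simp
    rw [h3, abs_of_pos (by positivity), smul_eq_mul] at h2
    have h4 : (fun z : V => w (ε • z) * D ε (ε • z)) =
        fun z => (ε ^ 3)⁻¹ * (w (ε • z) * D 1 z) := by
      funext z
      rw [D_scale hε]
      ring
    rw [h4, integral_const_mul] at h2
    have h5 : (ε ^ 3)⁻¹ ≠ 0 := by positivity
    exact (mul_left_cancel₀ h5 h2).symm
  simp only [h1]
  obtain ⟨B, hB⟩ := hw.bounded_above_of_compact_support hc
  rw [← integral_const_mul]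
  refine tendsto_integral_of_dominated_convergence (fun z => B * D 1 z) ?_ (D_int.const_mul B)
    ?_ ?_
  · intro n
    refine Continuous.aestronglyMeasurable ?_
    exact (hw.comp (continuous_const_smul _)).mul (D_smooth one_pos).continuous
  · intro n
    refine ae_of_all _ fun z => ?_
    rw [norm_mul, Real.norm_eq_abs (D 1 z), abs_of_pos (D_pos one_pos z)]
    exact mul_le_mul_of_nonneg_right (hB _) (D_pos one_pos z).le
  · refine ae_of_all _ fun z => ?_
    refine Tendsto.mul_const _ ?_
    have h2 : Tendsto (fun n : ℕ => (1 / ((n : ℝ) + 1)) • z) atTop (𝓝 0) := by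
      have h3 := (tendsto_one_div_add_atTop_nhds_zero_nat (𝕜 := ℝ)).smul_const z
      rwa [zero_smul] at h3
    exact (hw.tendsto 0).comp h2

/-- the constant `4 π` -/
noncomputable def kap : ℝ := ∫ z : V, D 1 z

lemma kap_pos : 0 < kap := D_int_pos

lemma newton0 {w : V → ℝ} (hw : ContDiff ℝ ∞ w) (hc : HasCompactSupport w) :
    ENNReal.ofReal (|w 0| * kap) ≤ ∫⁻ z, ENNReal.ofReal |lap w z| * nk z := by
  have h1 := (lim_w hw.continuous hc).abs
  rw [abs_mul, abs_of_pos D_int_pos] at h1
  have h2 := (ENNReal.continuous_ofReal.tendsto _).comp h1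
  refine le_of_tendsto h2 (Eventually.of_forall fun n => ?_)
  have hε : (0 : ℝ) < 1 / ((n : ℝ) + 1) := by positivity
  simp only [Function.comp_apply]
  have h3 : |∫ z, w z * D (1 / ((n : ℝ) + 1)) z| = |∫ z, P (1 / ((n : ℝ) + 1)) z * lap w z| := by
    rw [green hε hw hc, abs_neg]
  rw [h3, ← Real.enorm_eq_ofReal_abs]
  refine (enorm_integral_le_lintegral_enorm _).trans (lintegral_mono fun z => ?_)
  rw [Real.enorm_eq_ofReal_abs, abs_mul, abs_of_pos (P_pos hε z), mul_comm, ENNReal.ofReal_mul (abs_nonneg _)]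
  gcongr
  exact P_le_nk hε z

lemma pd_shift (f : V → ℝ) (x : V) (i : Fin 3) : pd i (fun z => f (x + z)) = fun z => pd i f (x + z) := by
  funext z
  unfold pd
  rw [fderiv_comp_add_left]

lemma newton {A : V → ℝ} (hA : ContDiff ℝ ∞ A) (hc : HasCompactSupport A) (x : V) :
    ENNReal.ofReal (|A x| * kap) ≤ ∫⁻ y, ENNReal.ofReal |lap A y| * nk (x - y) := by
  have h1 := newton0 (w := fun z => A (x + z)) (hA.comp (contDiff_const.add contDiff_id))
    (hc.comp_homeomorph (Homeomorph.addLeft x))
  simp only [add_zero] at h1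
  refine h1.trans (le_of_eq ?_)
  have h2 : ∀ z, lap (fun z => A (x + z)) z = lap A (x + z) := by
    intro z
    rw [lap_sum, lap_sum]
    refine Finset.sum_congr rfl fun i _ => ?_
    rw [pd_shift, pd_shift]
  simp only [h2]
  have h3 := lintegral_add_left_eq_self (μ := (volume : Measure V))
    (fun y => ENNReal.ofReal |lap A y| * nk (x - y)) x
  rw [← h3]
  refine lintegral_congr fun z => ?_
  congr 1
  unfold nk nn
  congr 2
  refine Finset.sum_congr rfl fun i _ => ?_
  simp

lemma lap_coord {F : V → ℝ} (hF : ContDiff ℝ ∞ F) (i : Fin 3) (x : V) :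
    lap (fun y => y i * F y) x = x i * lap F x + 2 * pd i F x := by
  have h1 : ∀ j, pd j (fun y => y i * F y) = fun y => y i * pd j F y + (if j = i then 1 else 0) * F y := by
    intro j
    funext y
    rw [pd_mul (smooth_coord i) hF j y, pd_coord]
  have h2 : ∀ j, pd j (pd j (fun y => y i * F y)) x =
      x i * pd j (pd j F) x + 2 * ((if j = i then 1 else 0) * pd j F x) := by
    intro j
    rw [h1, pd_add ((smooth_coord i).mul (smooth_pd hF j)) (contDiff_const.mul hF),
      pd_mul (smooth_coord i) (smooth_pd hF j), pd_coord, pd_mul contDiff_const hF]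
    have h3 : pd j (fun _ : V => (if j = i then (1 : ℝ) else 0)) x = 0 := by
      unfold pd
      simp
    rw [h3]
    ring
  rw [lap_sum, Finset.sum_congr rfl fun j _ => h2 j, Finset.sum_add_distrib, ← Finset.mul_sum, ← lap_sum,
    ← Finset.mul_sum]
  congr 2
  simp

lemma newt_F {F q : V → ℝ} (hF : ContDiff ℝ ∞ F) (hc : HasCompactSupport F)
    (h0 : ∀ x, pd 0 F x = x 0 * q x) (h1 : ∀ x, pd 1 F x = x 1 * q x) (i : Fin 3) (hi : i = 0 ∨ i = 1)
    (x : V) : ENNReal.ofReal (|x i * F x| * kap) ≤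
      ∫⁻ y, ENNReal.ofReal (√(sg y) * |lap F y + 2 * q y|) * nk (x - y) := by
  have h2 := newton (A := fun y => y i * F y) ((smooth_coord i).mul hF) hc.mul_left x
  refine h2.trans (lintegral_mono fun y => ?_)
  have h3 : pd i F y = y i * q y := by
    rcases hi with rfl | rfl
    · exact h0 y
    · exact h1 y
  gcongr
  rw [lap_coord hF, h3, show y i * lap F y + 2 * (y i * q y) = y i * (lap F y + 2 * q y) by ring, abs_mul]
  apply mul_le_mul_of_nonneg_right _ (abs_nonneg _)
  apply Real.abs_le_sqrt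
  unfold sg
  rcases hi with rfl | rfl
  · have := sq_nonneg (y 1)
    linarith
  · have := sq_nonneg (y 0)
    linarith

end Pool.Agent.V8H36.OW
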