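import Pool.Agent.V8H53.OW.Defs
import Pool.Agent.Q153.VD.Core

set_option autoImplicit false
set_option linter.all false
set_option maxHeartbeats 4000000

/-!
Job KER of project OW (helper53), part 1: rotations about the axis.
-/

open MeasureTheory Set Metric Filter Topology
open scoped ContDiff ENNReal
open H459R3.NS Pool.Agent.W268.NS

namespace Pool.Agent.V8H36.OW

open Pool.Agent.Q67.AXI Pool.Agent.TH305.AX
open Pool.Agent.Q153.VD (nn nn_nonneg)

lemma rot0 (a : ℝ) (x : V) : rot a x 0 = Real.cos a * x 0 - Real.sin a * x 1 := rfl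
lemma rot1 (a : ℝ) (x : V) : rot a x 1 = Real.sin a * x 0 + Real.cos a * x 1 := rfl
lemma rot2 (a : ℝ) (x : V) : rot a x 2 = x 2 := rfl

lemma ext3 {x y : V} (h0 : x 0 = y 0) (h1 : x 1 = y 1) (h2 : x 2 = y 2) : x = y := by
  funext i
  fin_cases i
  · exact h0
  · exact h1
  · exact h2

/-- the rotation as a linear map -/
noncomputable def rotL (a : ℝ) : V →ₗ[ℝ] V where
  toFun := rot a
  map_add' x y := by
    apply ext3 <;> simp only [rot0, rot1, rot2, Pi.add_apply] <;> ring
  map_smul' c x := by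
    apply ext3 <;> simp only [rot0, rot1, rot2, Pi.smul_apply, smul_eq_mul, RingHom.id_apply] <;> ring

lemma rot_sub (a : ℝ) (x y : V) : rot a (x - y) = rot a x - rot a y := (rotL a).map_sub x y

lemma rot_rot (a b : ℝ) (x : V) : rot a (rot b x) = rot (a + b) x := by
  apply ext3
  · simp only [rot0, rot1, Real.cos_add, Real.sin_add]; ring
  · simp only [rot0, rot1, Real.cos_add, Real.sin_add]; ring
  · simp only [rot2]

lemma rot_zero (x : V) : rot 0 x = x := by
  apply ext3
  · simp [rot0]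
  · simp [rot1]
  · simp [rot2]

lemma nn_eq (x : V) : nn x = x 0 ^ 2 + x 1 ^ 2 + x 2 ^ 2 := by
  unfold nn
  rw [Fin.sum_univ_three]

lemma nn_rot (a : ℝ) (x : V) : nn (rot a x) = nn x := by
  rw [nn_eq, nn_eq, rot0, rot1, rot2]
  have := Real.sin_sq_add_cos_sq a
  linear_combination (x 0 ^ 2 + x 1 ^ 2) * this

lemma sg_rot (a : ℝ) (x : V) : sg (rot a x) = sg x := by
  unfold sg
  rw [rot0, rot1]
  have := Real.sin_sq_add_cos_sq a
  linear_combination (x 0 ^ 2 + x 1 ^ 2) * this

lemma rot_cont : Continuous (fun p : ℝ × V => rot p.1 p.2) := by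
  refine continuous_pi fun i => ?_
  fin_cases i
  · show Continuous fun p : ℝ × V => Real.cos p.1 * p.2 0 - Real.sin p.1 * p.2 1
    fun_prop
  · show Continuous fun p : ℝ × V => Real.sin p.1 * p.2 0 + Real.cos p.1 * p.2 1
    fun_prop
  · show Continuous fun p : ℝ × V => p.2 2
    fun_prop

lemma rot_cont' (a : ℝ) : Continuous (rot a) :=
  rot_cont.comp (continuous_const.prodMk continuous_id)

lemma det_rot (a : ℝ) : LinearMap.det (rotL a) = 1 := by
  rw [← LinearMap.det_toMatrix' (f := rotL a), Matrix.det_fin_three]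
  simp only [LinearMap.toMatrix'_apply]
  have e : ∀ i : Fin 3, (rotL a) (Pi.single i 1) = rot a (Pi.single i 1) := fun _ => rfl
  simp only [e, rot0, rot1, rot2]
  have := Real.sin_sq_add_cos_sq a
  simp
  nlinarith

/-- rotations preserve the volume -/
lemma rot_mp (a : ℝ) : MeasurePreserving (rot a) (volume : Measure V) volume := by
  refine ⟨(rot_cont' a).measurable, ?_⟩
  have h1 := Real.map_linearMap_volume_pi_eq_smul_volume_pi (f := rotL a) (by rw [det_rot]; norm_num)
  rw [det_rot] at h1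
  have h2 : (rotL a : V → V) = rot a := rfl
  rw [h2] at h1
  rw [h1]
  simp

lemma lint_rot (a : ℝ) (f : V → ℝ≥0∞) (hf : Measurable f) : ∫⁻ x, f (rot a x) = ∫⁻ x, f x :=
  (rot_mp a).lintegral_comp hf

/-- polar angle -/
lemma angle (x : V) : ∃ b : ℝ, x 0 = √(sg x) * Real.cos b ∧ x 1 = √(sg x) * Real.sin b := by
  set z : ℂ := ⟨x 0, x 1⟩ with hz
  have hn : ‖z‖ = √(sg x) := by
    rw [Complex.norm_def, Complex.normSq_apply]
    congr 1
    unfold sg
    rw [hz]
    ring
  refine ⟨Complex.arg z, ?_, ?_⟩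
  · have := Complex.norm_mul_cos_arg z
    rw [hn] at this
    exact this.symm
  · have := Complex.norm_mul_sin_arg z
    rw [hn] at this
    exact this.symm

/-- the distance between a point and a rotated point -/
lemma dist_rot (x y : V) : ∃ c : ℝ, ∀ a : ℝ,
    nn (x - rot a y) = (x 2 - y 2) ^ 2 + sg x + sg y - 2 * (√(sg x) * √(sg y)) * Real.cos (a - c) := by
  obtain ⟨b, hb0, hb1⟩ := angle x
  obtain ⟨d, hd0, hd1⟩ := angle y
  refine ⟨b - d, fun a => ?_⟩
  have hx : √(sg x) ^ 2 = sg x := Real.sq_sqrt (by unfold sg; positivity)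
  have hy : √(sg y) ^ 2 = sg y := Real.sq_sqrt (by unfold sg; positivity)
  have e1 : rot a y 0 = √(sg y) * Real.cos (a + d) := by
    rw [rot0, hd0, hd1, Real.cos_add]; ring
  have e2 : rot a y 1 = √(sg y) * Real.sin (a + d) := by
    rw [rot1, hd0, hd1, Real.sin_add]; ring
  have e3 : Real.cos (a - (b - d)) = Real.cos b * Real.cos (a + d) + Real.sin b * Real.sin (a + d) := by
    rw [show a - (b - d) = (a + d) - b by ring, Real.cos_sub]; ring
  rw [nn_eq]
  simp only [Pi.sub_apply]
  rw [e1, e2, rot2, hb0, hb1, e3]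
  have s1 := Real.sin_sq_add_cos_sq b
  have s2 := Real.sin_sq_add_cos_sq (a + d)
  have f1 : sg x = √(sg x) ^ 2 * (Real.sin b ^ 2 + Real.cos b ^ 2) := by rw [s1, mul_one, hx]
  have f2 : sg y = √(sg y) ^ 2 * (Real.sin (a + d) ^ 2 + Real.cos (a + d) ^ 2) := by rw [s2, mul_one, hy]
  generalize √(sg x) = u at *
  generalize √(sg y) = v at *
  rw [f1, f2]
  ring

end Pool.Agent.V8H36.OW
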